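import Pool.Agent.Y719.TN.NF

/-!
# Whether the companions of a lisse sheaf come from geometry does not depend on `ℓ`

Let `K` be a field, for example the function field of a smooth variety `X` over a finite field, and
let `Frob x`, for the points `x` of some set, be subsets of the absolute Galois group `G_K` whose
union is dense, for example the sets of Frobenius elements at the closed points `x` of a dense open
subset of `X`.  Let `ρ` and `ρ'` be `ℓ`-adic and `ℓ'`-adic companions, for example those of an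
irreducible lisse sheaf on `X` with determinant of finite order, and let `W` and `W'` be companions
too, for example `H^i(Y, ℚ_ℓ-bar)` and `H^i(Y, ℚ_ℓ'-bar)` for a smooth projective variety `Y` over `K`.

We prove: if `ρ'` is a subquotient of `W'^{⊗a} ⊗ (W'^∨)^{⊗b} ⊗ ℚ_ℓ'-bar[Gal(L/K)]` for some `a`, `b`
and some finite Galois extension `L` of `K` (for example a subquotient of `W'`), then `ρ` is a
subquotient of a similar space made from `W`; this is a subquotient of a Tate twist of the cohomology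
of `Y^m × Spec L`.
-/

set_option autoImplicit false

namespace Pool.Agent.Results.MP_80bee4_ag.IndependenceOfEll

open Topology Polynomial

/-- The absolute Galois group of `K`. -/
abbrev G (K : Type) [Field K] : Type := Gal(AlgebraicClosure K/K)

/-- `n`-dimensional representations of `G_K` over the algebraic closure of `ℚ_ℓ`. -/
abbrev Rep (K : Type) [Field K] (ℓ : ℕ) [Fact ℓ.Prime] (n : ℕ) : Type :=
  G K →* GL (Fin n) (PadicAlgCl ℓ)

section
variable {K : Type} [Field K] {ℓ : ℕ} [Fact ℓ.Prime] {n N : ℕ}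

/-- The matrix of `g`. -/
noncomputable def matrix (ρ : Rep K ℓ n) (g : G K) : Matrix (Fin n) (Fin n) (PadicAlgCl ℓ) :=
  (ρ g : GL (Fin n) (PadicAlgCl ℓ))

/-- `V` is a stable subspace. -/
def Stable (ρ : Rep K ℓ n) (V : Submodule (PadicAlgCl ℓ) (Fin n → PadicAlgCl ℓ)) : Prop :=
  ∀ g, ∀ x ∈ V, (matrix ρ g).mulVec x ∈ V

/-- `ρ` is irreducible. -/
def Irreducible (ρ : Rep K ℓ n) : Prop :=
  0 < n ∧ ∀ V, Stable ρ V → V = ⊥ ∨ V = ⊤

/-- `ρ` is (isomorphic to) a subquotient of the space `X` on which `g ∈ G_K` acts as `act g`: there are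
a stable subspace `V` of `X` and a linear map which maps `V` onto `ρ` and is equivariant on `V`. -/
def SubquotientOf {X : Type} [AddCommGroup X] [Module (PadicAlgCl ℓ) X] (act : G K → X → X)
    (ρ : Rep K ℓ n) : Prop :=
  ∃ V : Submodule (PadicAlgCl ℓ) X, (∀ g, ∀ x ∈ V, act g x ∈ V) ∧
    ∃ f : X → Fin n → PadicAlgCl ℓ, IsLinearMap (PadicAlgCl ℓ) f ∧ (∀ y, ∃ x ∈ V, f x = y) ∧
      ∀ g, ∀ x ∈ V, f (act g x) = (matrix ρ g).mulVec (f x)

/-- The space of `W^{⊗a} ⊗ (W^∨)^{⊗b} ⊗ ℚ_ℓ-bar[G_K/U]`, where `W` has the dimension `N`: functions on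
the standard basis. -/
def TensorSpace (K : Type) [Field K] (ℓ : ℕ) [Fact ℓ.Prime] (N a b : ℕ)
    (U : Subgroup (G K)) : Type :=
  (Fin a → Fin N) → (Fin b → Fin N) → G K ⧸ U → PadicAlgCl ℓ

noncomputable instance (N a b : ℕ) (U : Subgroup (G K)) : AddCommGroup (TensorSpace K ℓ N a b U) :=
  Pi.addCommGroup

noncomputable instance (N a b : ℕ) (U : Subgroup (G K)) :
    Module (PadicAlgCl ℓ) (TensorSpace K ℓ N a b U) :=
  Pi.module _ _ _

/-- The matrix coefficient `∏_s W(g)_{i_s, i'_s} · ∏_t W(g⁻¹)_{j'_t, j_t}` of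
`W^{⊗a} ⊗ (W^∨)^{⊗b}`. -/
noncomputable def coefficient {a b : ℕ} (W : Rep K ℓ N) (g : G K) (i i' : Fin a → Fin N)
    (j j' : Fin b → Fin N) : PadicAlgCl ℓ :=
  (∏ s, matrix W g (i s) (i' s)) * ∏ t, matrix W g⁻¹ (j' t) (j t)

/-- The action of `g` on `W^{⊗a} ⊗ (W^∨)^{⊗b} ⊗ ℚ_ℓ-bar[G_K/U]`: the value of `g F` at `(i, j, c)` is the
sum over `(i', j')` of `∏_s W(g)_{i_s, i'_s} · ∏_t W(g⁻¹)_{j'_t, j_t} · F(i', j', g⁻¹ c)`. -/
noncomputable def tensorAction (a b : ℕ) (U : Subgroup (G K)) (W : Rep K ℓ N) (g : G K)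
    (F : TensorSpace K ℓ N a b U) : TensorSpace K ℓ N a b U := fun i j c =>
  ∑ i', ∑ j', coefficient W g i i' j j' * F i' j' (g⁻¹ • c)

/-- `ρ` is a subquotient of `W^{⊗a} ⊗ (W^∨)^{⊗b} ⊗ ℚ_ℓ-bar[G_K/U]` for some `a`, `b` and some open
normal subgroup `U` of finite index. -/
def Tensorial (W : Rep K ℓ N) (ρ : Rep K ℓ n) : Prop :=
  ∃ U : Subgroup (G K), U.Normal ∧ IsOpen (U : Set (G K)) ∧ U.FiniteIndex ∧
    ∃ a b : ℕ, SubquotientOf (tensorAction a b U W) ρ

/-- For all `x` the characteristic polynomial of `ρ(g)`, for every `g ∈ Frob x`, is the image of `P_x`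
under `ι`. -/
def HasCharpoly {X : Type} (Frob : X → Set (G K)) {E : Type} [Field E] (ι : E →+* PadicAlgCl ℓ)
    (ρ : Rep K ℓ n) (P : X → E[X]) : Prop :=
  ∀ x, ∀ g ∈ Frob x, (matrix ρ g).charpoly = (P x).map ι

end

/-- **Independence of `ℓ`.**  Let `K` be a field, `X` a set and `Frob x`, `x ∈ X`, subsets of `G_K` with
dense union, for example the sets of Frobenius elements at the closed points of a dense open subset of
a variety with function field `K`.  Let `ℓ` and `ℓ'` be prime numbers (which may be equal), `ρ` and `ρ'`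
representations of `G_K` of dimension `n` over `ℚ_ℓ-bar` and `ℚ_ℓ'-bar`, and `W` and `W'`
representations of dimension `N` over `ℚ_ℓ-bar` and `ℚ_ℓ'-bar`.  Suppose that `ρ` and `ρ'` have the
same characteristic polynomials `P_x` on `Frob x`, with coefficients in a field `E` with embeddings `ι`
and `ι'` into `ℚ_ℓ-bar` and `ℚ_ℓ'-bar`, and that `W` and `W'` have the same characteristic polynomials
`Q_x`.  Let `ρ` be irreducible and `ρ` and `W` continuous.

If `ρ'` is a subquotient of `W'^{⊗a} ⊗ (W'^∨)^{⊗b} ⊗ ℚ_ℓ'-bar[G_K/U]` for some `a`, `b` and some open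
normal subgroup `U` of finite index, then `ρ` is a subquotient of
`W^{⊗c} ⊗ (W^∨)^{⊗d} ⊗ ℚ_ℓ-bar[G_K/U']` for some `c`, `d` and some open normal subgroup `U'` of finite
index. -/
theorem result (K : Type) [Field K] (X : Type) (Frob : X → Set (G K)) (hD : Dense (⋃ x, Frob x))
    (n N ℓ ℓ' : ℕ) [Fact ℓ.Prime] [Fact ℓ'.Prime] (E : Type) [Field E]
    (ι : E →+* PadicAlgCl ℓ) (ι' : E →+* PadicAlgCl ℓ') (P Q : X → E[X])
    (ρ : Rep K ℓ n) (W : Rep K ℓ N) (ρ' : Rep K ℓ' n) (W' : Rep K ℓ' N)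
    (hρ : Continuous ρ) (hW : Continuous W) (hirr : Irreducible ρ)
    (h₁ : HasCharpoly Frob ι ρ P) (h₂ : HasCharpoly Frob ι W Q) (h₃ : HasCharpoly Frob ι' ρ' P)
    (h₄ : HasCharpoly Frob ι' W' Q) (h : Tensorial W' ρ') : Tensorial W ρ := by
  classical
  obtain ⟨U, hn, ho, hfi, a, b, V, hV, f, hl, hf, hfe⟩ := h
  have h5 : Pool.Agent.Y719.TN.Tnl W' ρ' := by
    refine ⟨U, hn, ho, hfi, a, b, ?_⟩
    exact Pool.Agent.Y719.TN.SubQ.sqF
      (Pool.Agent.Y719.TN.SubQ.actF ⟨V, hV, hl.mk' f, hf, hfe⟩)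
  let P' : G K → E[X] := fun g => if hg : ∃ x, g ∈ Frob x then P hg.choose else 0
  let Q' : G K → E[X] := fun g => if hg : ∃ x, g ∈ Frob x then Q hg.choose else 0
  have hex : ∀ g ∈ ⋃ x, Frob x, ∃ x, g ∈ Frob x := fun g hg => Set.mem_iUnion.1 hg
  obtain ⟨U', hn', ho', hfi', a', b', h6⟩ := Pool.Agent.Y719.TN.Tnl.transfer hρ hW hirr
    (⋃ x, Frob x) hD ι' ι P' Q'
    (fun g hg => by
      have h1 : P' g = P (hex g hg).choose := dif_pos (hex g hg)
      rw [h1]
      exact h₃ _ g (hex g hg).choose_spec)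
    (fun g hg => by
      have h1 : Q' g = Q (hex g hg).choose := dif_pos (hex g hg)
      rw [h1]
      exact h₄ _ g (hex g hg).choose_spec)
    (fun g hg => by
      have h1 : P' g = P (hex g hg).choose := dif_pos (hex g hg)
      rw [h1]
      exact h₁ _ g (hex g hg).choose_spec)
    (fun g hg => by
      have h1 : Q' g = Q (hex g hg).choose := dif_pos (hex g hg)
      rw [h1]
      exact h₂ _ g (hex g hg).choose_spec) h5
  obtain ⟨V', hV', f', hf', hfe'⟩ := h6.subC
  exact ⟨U', hn', ho', hfi', a', b', V', hV', f', f'.isLinear, hf', hfe'⟩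

end Pool.Agent.Results.MP_80bee4_ag.IndependenceOfEll
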