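import Pool.Agent.Y135.OpenI

/-!
# Geometric origin of lisse sheaves: it suffices to treat one open subscheme of affine space

Let `U` be a non-empty open subscheme of the affine space of dimension `n` over the field with `p`
elements, for example the affine space itself. If the irreducible lisse `ℚ̄_ℓ`-sheaves on `U`
with determinant of finite order are of geometric origin, then this is true for all smooth
irreducible varieties `X` of dimension `n` over all finite fields of characteristic `p`.

The proof: by a trick of Kedlaya an open subscheme `V` of `X` has a finite étale morphism to the
affine space, with coordinates `x i + z i ^ (p ^ e)`, where the `x i` are étale coordinates and the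
`z i` are the coordinates of a Noether normalization. A given irreducible representation of the
fundamental group of `V` is a quotient of the restriction of an irreducible representation of the
fundamental group of the affine space, whose determinant is also of finite order (Clifford). The
cohomology is the real `ℓ`-adic cohomology `EllAdicCohomology` of Mathlib, for which we construct the
pullback maps, the structure of a module over `ℤ_ℓ`, the action of the Galois group on the cohomology
of the geometric fibre and its compatibility with base change.
-/

namespace Pool.Agent.Results.MP_80bee4_ag.OpenInAffineSpace

open CategoryTheory AlgebraicGeometry Pool.Agent.Y135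

/-- The question has a positive answer for all smooth irreducible varieties of dimension `n` over
finite fields of characteristic `p` if and only if this is so for one non-empty open subscheme `U` of
the affine space of dimension `n` over the field with `p` elements. -/
theorem result (p ℓ : ℕ) [Fact p.Prime] [Fact ℓ.Prime] (n : ℕ)
    (U : (Spec (.of (MvPolynomial (Fin n) (ZMod p)))).Opens) [Nonempty U] :
    (∀ (k : Type) [Field k] [Finite k] [CharP k p] (X : Scheme.{0}) [IsIntegral X]
      (f : X ⟶ Spec (.of k)) [SmoothOfRelativeDimension n f] [IsSeparated f] [QuasiCompact f],
      AllGeometric ℓ X) ↔ AllGeometric ℓ U := by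
  refine ⟨fun h => ?_, fun h k _ _ _ X _ f _ _ _ => reduction p ℓ n (h.of_open U.ι) k X f⟩
  have h1 := smooth_affineSpace n (ZMod p)
  have h2 : SmoothOfRelativeDimension (0 + n) (U.ι ≫ Spec.map (CommRingCat.ofHom
    (MvPolynomial.C : ZMod p →+* MvPolynomial (Fin n) (ZMod p)))) := inferInstance
  rw [zero_add] at h2
  have h3 : QuasiCompact (U.ι ≫ Spec.map (CommRingCat.ofHom
    (MvPolynomial.C : ZMod p →+* MvPolynomial (Fin n) (ZMod p)))) := by
    have : IsNoetherianRing (MvPolynomial (Fin n) (ZMod p)) := inferInstance
    infer_instance
  exact h (ZMod p) U (U.ι ≫ Spec.map (CommRingCat.ofHom MvPolynomial.C))

end Pool.Agent.Results.MP_80bee4_ag.OpenInAffineSpace
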