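import Pool.Agent.Y456.LG.FunF

/-!
# Geometric origin of lisse sheaves and sparse linear sections of `GL_m`

Let `K` be the function field of a smooth irreducible variety `X` of dimension `n` over a finite field of
characteristic `p`; it is a finite separable extension of the field `k = 𝔽_p(t_1, …, t_n)` of rational
functions (`RatF p n`). A sparse pattern in the letters `0, 1, t_1, …, t_n` is a square matrix `M` each of
whose entries is one of the letters or one of the variables `x_1, …, x_d`, in which each variable occurs,
with at most three nonzero entries in every row and in every column (`IsPat (letters p n) M`, `Thin M`).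
The points `x` of the affine space over `k` such that the matrix `M(x)` is invertible form the scheme `U_M`
(`secGL M`), a linear section of `GL_m` over `k`. It is the generic fibre of the projection `(t, x) ↦ t` of
a linear section of `GL_m` over the prime field `𝔽_p`, given by a pattern of zeros, ones and variables.

The cohomology groups of the schemes over `K` and `k`, as representations of the Galois group of `K`, and
the Tate twists are given by their known properties (`Theories`, `IsTheories`).

1. An irreducible representation `ρ` of the Galois group of `K` is of geometric origin (some `ρ(n)` is a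
   subquotient of `H^i(Y ⊗ K̄)`, with `Y` separated and of finite type over `K`) if and only if some `ρ(n)`
   is a subquotient of `H^i_c(U_M ⊗ k̄)`, for ONE sparse pattern `M` in the letters `0, 1, t_1, …, t_n`.
2. For every `Y` there is a finite list of sparse patterns such that, for all `ℓ` (for all cohomology
   theories), all irreducible subquotients of `H^i_c(Y ⊗ K̄)` are subquotients of some `H^j_c(U_M ⊗ k̄)`,
   `M` in the list.
-/

set_option autoImplicit false

open CategoryTheory AlgebraicGeometry MvPolynomial Pool.Agent.Y116.UV Pool.Agent.Z125.UN
  Pool.Agent.Y101.Th Pool.Agent.Y456.LG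

namespace Pool.Agent.Results.MP_80bee4_ag.SparseLinearSections

universe v u

/-- Geometric origin of irreducible lisse sheaves in dimension `n` and characteristic `p` is a question
about sparse linear sections of `GL_m` over `𝔽_p(t_1, …, t_n)` whose entries are variables and the letters
`0, 1, t_1, …, t_n`. -/
theorem result (p n : ℕ) [Fact p.Prime] {K : Type} [Field K] [Algebra (RatF p n) K]
    [FiniteDimensional (RatF p n) K] :
    (∀ {A : Type u} [Category.{v} A] [Abelian A] {T : Theories (RatF p n) K A}, IsTheories T →
      ∀ R : A, Simple R →
      ((∃ (r i : ℤ) (Y : Sch K), FT True Y ∧ Subq (T.tw r R) (T.Ho Y i)) ↔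
        ∃ (r i : ℤ) (d m : ℕ) (M : Matrix (Fin m) (Fin m) (MvPolynomial (Fin d) (RatF p n))),
          IsPat (letters p n) M ∧ Thin M ∧ Subq (T.tw r R) (T.H (secGL M) i))) ∧
    ∀ Y : Sch K, FT True Y → ∃ L : Mats (RatF p n),
      (∀ x ∈ L, IsPat (letters p n) x.2.2 ∧ Thin x.2.2) ∧
      ∀ {A : Type u} [Category.{v} A] [Abelian A] {T : Theories (RatF p n) K A}, IsTheories T →
        ∀ R : A, Simple R → ∀ i, Subq R (T.Hc Y i) →
          ∃ x ∈ L, ∃ j, Subq R (T.H (secGL x.2.2) j) :=
  ⟨fun hT R hR => var_iff (alphabet_letters p n) hT R hR,
    fun Y hY => var_fin (alphabet_letters p n) Y hY⟩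

end Pool.Agent.Results.MP_80bee4_ag.SparseLinearSections
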